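import Pool.Agent.H88.BM.One

/-!
# The Brunn-Minkowski inequality

* `bm_mult`: the multiplicative form for compact sets in `Fin n → ℝ` (Prekopa-Leindler for indicator functions, by
  induction on the dimension).
* `bm_pi`: `vol A ^ (1 / n) + vol B ^ (1 / n) ≤ vol S ^ (1 / n)` whenever `A, B` are nonempty and measurable and `S`
  contains all sums `x + y`, in `Fin n → ℝ`.
* `bm_euclid`: the same in `EuclideanSpace ℝ (Fin n)`.
* `bm_thickening`: for `S` the open neighbourhood of radius `r` of `A`.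
-/

set_option autoImplicit false

open MeasureTheory Set
open scoped ENNReal Pointwise

namespace Pool.Agent.H88.BM

theorem bm_mult {t : ℝ} (h0 : 0 < t) (h1 : t < 1) (n : ℕ) : ∀ (A B S : Set (Fin n → ℝ)),
    IsCompact A → IsCompact B → MeasurableSet S →
    (∀ x ∈ A, ∀ y ∈ B, (1 - t) • x + t • y ∈ S) →
    volume A ^ (1 - t) * volume B ^ t ≤ volume S := by
  have h2 : 0 < 1 - t := sub_pos.2 h1
  induction n with
  | zero =>
    intro A B S _ _ _ h
    rcases A.eq_empty_or_nonempty with rfl | ⟨a, ha⟩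
    · rw [measure_empty, ENNReal.zero_rpow_of_pos h2, zero_mul]
      exact zero_le
    rcases B.eq_empty_or_nonempty with rfl | ⟨b, hb⟩
    · rw [measure_empty, ENNReal.zero_rpow_of_pos h0, mul_zero]
      exact zero_le
    have hA : A = univ := Subsingleton.eq_univ_of_nonempty ⟨a, ha⟩
    have hB : B = univ := Subsingleton.eq_univ_of_nonempty ⟨b, hb⟩
    have hS : S = univ := Subsingleton.eq_univ_of_nonempty ⟨_, h a ha b hb⟩
    have hu : (volume : Measure (Fin 0 → ℝ)) univ = 1 := by
      rw [volume_pi, Measure.pi_empty_univ]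
    rw [hA, hB, hS, hu, ENNReal.one_rpow, ENNReal.one_rpow, one_mul]
  | succ n ih =>
    intro A B S hA hB hS h
    have mp := (volume_preserving_piFinSuccAbove (fun _ : Fin (n + 1) => ℝ) 0).symm
    set e := (MeasurableEquiv.piFinSuccAbove (fun _ : Fin (n + 1) => ℝ) 0).symm with he
    have he' : ∀ (s : ℝ) (z : Fin n → ℝ), e (s, z) = Fin.cons s z := by
      intro s z
      rw [he]
      show Fin.insertNth (α := fun _ => ℝ) (0 : Fin (n + 1)) s z = _
      exact Fin.insertNth_zero' s z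
    have hset : ∀ (A : Set (Fin (n + 1) → ℝ)) (s : ℝ),
        Prod.mk s ⁻¹' (e ⁻¹' A) = {z : Fin n → ℝ | Fin.cons s z ∈ A} := by
      intro A s
      ext z
      rw [mem_preimage, mem_preimage, he']
      rfl
    have hcont : ∀ s : ℝ, Continuous fun z : Fin n → ℝ => (Fin.cons s z : Fin (n + 1) → ℝ) := by
      intro s
      refine continuous_pi fun i => ?_
      refine Fin.cases ?_ (fun j => ?_) i
      · simpa using continuous_const
      · simpa using continuous_apply j
    -- slices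
    have sl : ∀ {A : Set (Fin (n + 1) → ℝ)}, MeasurableSet A →
        volume A = ∫⁻ s : ℝ, volume {z : Fin n → ℝ | Fin.cons s z ∈ A} := by
      intro A hA
      rw [← mp.measure_preimage hA.nullMeasurableSet, Measure.volume_eq_prod,
        Measure.prod_apply (e.measurable hA)]
      exact lintegral_congr fun s => by rw [hset]
    have mF : ∀ {A : Set (Fin (n + 1) → ℝ)}, MeasurableSet A →
        Measurable fun s : ℝ => volume {z : Fin n → ℝ | Fin.cons s z ∈ A} := by
      intro A hA
      have := measurable_measure_prodMk_left (ν := (volume : Measure (Fin n → ℝ)))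
        (e.measurable hA)
      simp only [hset] at this
      exact this
    have tail : ∀ {A : Set (Fin (n + 1) → ℝ)}, IsCompact A → ∀ s : ℝ,
        {z : Fin n → ℝ | Fin.cons s z ∈ A} ⊆ (fun x : Fin (n + 1) → ℝ => Fin.tail x) '' A := by
      intro A _ s z hz
      exact ⟨_, hz, Fin.tail_cons _ _⟩
    have tailc : Continuous fun x : Fin (n + 1) → ℝ => (Fin.tail x : Fin n → ℝ) :=
      continuous_pi fun i => continuous_apply _
    have cpt : ∀ {A : Set (Fin (n + 1) → ℝ)}, IsCompact A → ∀ s : ℝ,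
        IsCompact {z : Fin n → ℝ | Fin.cons s z ∈ A} := by
      intro A hA s
      exact (hA.image tailc).of_isClosed_subset (hA.isClosed.preimage (hcont s)) (tail hA s)
    rw [sl hA.measurableSet, sl hB.measurableSet, sl hS]
    refine pl_one (mF hA.measurableSet) (mF hB.measurableSet) (mF hS)
      (M := volume ((fun x : Fin (n + 1) → ℝ => (Fin.tail x : Fin n → ℝ)) '' A) +
        volume ((fun x : Fin (n + 1) → ℝ => (Fin.tail x : Fin n → ℝ)) '' B))
      (ENNReal.add_ne_top.2 ⟨(hA.image tailc).measure_ne_top, (hB.image tailc).measure_ne_top⟩)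
      (fun s => (measure_mono (tail hA s)).trans le_self_add)
      (fun s => (measure_mono (tail hB s)).trans le_add_self)
      (by rw [← sl hA.measurableSet]; exact hA.measure_ne_top)
      (by rw [← sl hB.measurableSet]; exact hB.measure_ne_top) h0 h1 ?_
    intro x y
    refine ih _ _ _ (cpt hA x) (cpt hB y) ((hcont _).measurable hS) ?_
    intro z hz w hw
    have h3 := h _ hz _ hw
    have h4 : (1 - t) • (Fin.cons x z : Fin (n + 1) → ℝ) + t • (Fin.cons y w : Fin (n + 1) → ℝ) =
        Fin.cons ((1 - t) * x + t * y) ((1 - t) • z + t • w) := by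
      funext i
      refine Fin.cases ?_ (fun j => ?_) i
      · simp
      · simp
    rw [h4] at h3
    exact h3

/-- scaling in `Fin n → ℝ` -/
private theorem Main_smul {n : ℕ} (c : ℝ) (hc : 0 < c) (A : Set (Fin n → ℝ)) :
    volume ((fun x => c • x) '' A) = ENNReal.ofReal (c ^ n) * volume A := by
  have := Measure.addHaar_smul (volume : Measure (Fin n → ℝ)) c A
  rw [Module.finrank_fin_fun, abs_of_pos (pow_pos hc n)] at this
  rw [← this]
  rfl

/-- the inequality for compact sets of positive volume -/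
private theorem Main_pos {n : ℕ} (hn : 0 < n) {A B S : Set (Fin n → ℝ)} (hA : IsCompact A)
    (hB : IsCompact B) (hA0 : volume A ≠ 0) (hB0 : volume B ≠ 0)
    (h : ∀ x ∈ A, ∀ y ∈ B, x + y ∈ S) :
    volume A ^ (1 / (n : ℝ)) + volume B ^ (1 / (n : ℝ)) ≤ volume S ^ (1 / (n : ℝ)) := by
  have hn' : (0 : ℝ) < n := by exact_mod_cast hn
  have hp : 0 < 1 / (n : ℝ) := by positivity
  obtain ⟨a, ha⟩ : ∃ a, a = (volume A).toReal ^ (1 / (n : ℝ)) := ⟨_, rfl⟩
  obtain ⟨b, hb⟩ : ∃ b, b = (volume B).toReal ^ (1 / (n : ℝ)) := ⟨_, rfl⟩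
  have hAt := hA.measure_ne_top (μ := volume)
  have hBt := hB.measure_ne_top (μ := volume)
  have ha0 : 0 < a := ha ▸ Real.rpow_pos_of_pos (ENNReal.toReal_pos hA0 hAt) _
  have hb0 : 0 < b := hb ▸ Real.rpow_pos_of_pos (ENNReal.toReal_pos hB0 hBt) _
  have hab : 0 < a + b := by positivity
  have ea : ENNReal.ofReal (a ^ n) = volume A := by
    rw [ha, ← Real.rpow_natCast, ← Real.rpow_mul ENNReal.toReal_nonneg,
      one_div_mul_cancel hn'.ne', Real.rpow_one, ENNReal.ofReal_toReal hAt]
  have eb : ENNReal.ofReal (b ^ n) = volume B := by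
    rw [hb, ← Real.rpow_natCast, ← Real.rpow_mul ENNReal.toReal_nonneg,
      one_div_mul_cancel hn'.ne', Real.rpow_one, ENNReal.ofReal_toReal hBt]
  have er : ∀ c : ℝ, 0 < c → ENNReal.ofReal (c ^ n) ^ (1 / (n : ℝ)) = ENNReal.ofReal c := by
    intro c hc
    rw [ENNReal.ofReal_rpow_of_nonneg (by positivity) hp.le, ← Real.rpow_natCast,
      ← Real.rpow_mul hc.le, mul_one_div_cancel hn'.ne', Real.rpow_one]
  have hAc : IsCompact ((fun x => a⁻¹ • x) '' A) := hA.image (by fun_prop)
  have hBc : IsCompact ((fun x => b⁻¹ • x) '' B) := hB.image (by fun_prop)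
  have hSc : IsCompact ((fun x => (a + b)⁻¹ • x) '' (A + B)) :=
    (hA.add hB).image (by fun_prop)
  have h1 := bm_mult (t := b / (a + b)) (by positivity) (by rw [div_lt_one hab]; linarith) n
    _ _ _ hAc hBc hSc.measurableSet (by
      rintro _ ⟨x, hx, rfl⟩ _ ⟨y, hy, rfl⟩
      refine ⟨x + y, add_mem_add hx hy, ?_⟩
      have e1 : 1 - b / (a + b) = a / (a + b) := by field_simp; ring
      simp only [e1, smul_smul, smul_add]
      congr 1
      · congr 1
        field_simp
      · congr 1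
        field_simp)
  rw [Main_smul _ (by positivity), Main_smul _ (by positivity), Main_smul _ (by positivity),
    ← ea, ← eb, ← ENNReal.ofReal_mul (by positivity), ← ENNReal.ofReal_mul (by positivity),
    ← mul_pow, ← mul_pow, inv_mul_cancel₀ ha0.ne', inv_mul_cancel₀ hb0.ne', one_pow,
    ENNReal.ofReal_one, ENNReal.one_rpow, ENNReal.one_rpow, one_mul] at h1
  have h2 : ENNReal.ofReal ((a + b) ^ n) ≤ volume (A + B) := by
    have h3 := mul_le_mul_right h1 (ENNReal.ofReal ((a + b) ^ n))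
    rw [mul_one, ← mul_assoc, ← ENNReal.ofReal_mul (by positivity), ← mul_pow,
      mul_inv_cancel₀ hab.ne', one_pow, ENNReal.ofReal_one, one_mul] at h3
    exact h3
  calc volume A ^ (1 / (n : ℝ)) + volume B ^ (1 / (n : ℝ)) = ENNReal.ofReal (a + b) := by
        rw [← ea, ← eb, er a ha0, er b hb0, ENNReal.ofReal_add ha0.le hb0.le]
    _ = ENNReal.ofReal ((a + b) ^ n) ^ (1 / (n : ℝ)) := (er _ hab).symm
    _ ≤ volume (A + B) ^ (1 / (n : ℝ)) := ENNReal.rpow_le_rpow h2 hp.le
    _ ≤ volume S ^ (1 / (n : ℝ)) := by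
        refine ENNReal.rpow_le_rpow (measure_mono ?_) hp.le
        rintro _ ⟨x, hx, y, hy, rfl⟩
        exact h x hx y hy

/-- the inequality for nonempty compact sets -/
private theorem Main_cpt {n : ℕ} (hn : 0 < n) {A B S : Set (Fin n → ℝ)} (hA : IsCompact A)
    (hB : IsCompact B) (hA0 : A.Nonempty) (hB0 : B.Nonempty)
    (h : ∀ x ∈ A, ∀ y ∈ B, x + y ∈ S) :
    volume A ^ (1 / (n : ℝ)) + volume B ^ (1 / (n : ℝ)) ≤ volume S ^ (1 / (n : ℝ)) := by
  have hn' : (0 : ℝ) < n := by exact_mod_cast hn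
  have hp : 0 < 1 / (n : ℝ) := by positivity
  by_cases h1 : volume A = 0
  · obtain ⟨a, ha⟩ := hA0
    rw [h1, ENNReal.zero_rpow_of_pos hp, zero_add]
    refine ENNReal.rpow_le_rpow ?_ hp.le
    calc volume B = volume ((fun y => a + y) '' B) := by
          rw [image_add_left, measure_preimage_add]
      _ ≤ volume S := measure_mono (by
          rintro _ ⟨y, hy, rfl⟩
          exact h a ha y hy)
  by_cases h2 : volume B = 0
  · obtain ⟨b, hb⟩ := hB0
    rw [h2, ENNReal.zero_rpow_of_pos hp, add_zero]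
    refine ENNReal.rpow_le_rpow ?_ hp.le
    calc volume A = volume ((fun y => y + b) '' A) := by
          rw [image_add_right, measure_preimage_add_right]
      _ ≤ volume S := measure_mono (by
          rintro _ ⟨y, hy, rfl⟩
          exact h y hy b hb)
  exact Main_pos hn hA hB h1 h2 h

/-- **The Brunn-Minkowski inequality** in `Fin n → ℝ`. -/
theorem bm_pi {n : ℕ} (hn : 0 < n) {A B S : Set (Fin n → ℝ)} (hA : MeasurableSet A)
    (hB : MeasurableSet B) (hA0 : A.Nonempty) (hB0 : B.Nonempty)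
    (h : ∀ x ∈ A, ∀ y ∈ B, x + y ∈ S) :
    volume A ^ (1 / (n : ℝ)) + volume B ^ (1 / (n : ℝ)) ≤ volume S ^ (1 / (n : ℝ)) := by
  have hn' : (0 : ℝ) < n := by exact_mod_cast hn
  have hp : 0 < 1 / (n : ℝ) := by positivity
  obtain ⟨a, ha⟩ := hA0
  obtain ⟨b, hb⟩ := hB0
  have : Nonempty {K : Set (Fin n → ℝ) // K ⊆ A ∧ IsCompact K ∧ K.Nonempty} :=
    ⟨⟨{a}, by simpa using ha, isCompact_singleton, singleton_nonempty a⟩⟩
  have : Nonempty {K : Set (Fin n → ℝ) // K ⊆ B ∧ IsCompact K ∧ K.Nonempty} :=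
    ⟨⟨{b}, by simpa using hb, isCompact_singleton, singleton_nonempty b⟩⟩
  have e : ∀ A : Set (Fin n → ℝ), MeasurableSet A → volume A ^ (1 / (n : ℝ)) ≤
      ⨆ K : {K : Set (Fin n → ℝ) // K ⊆ A ∧ IsCompact K ∧ K.Nonempty},
        volume K.1 ^ (1 / (n : ℝ)) := by
    intro A hA
    refine (ENNReal.rpow_le_rpow (One_sup volume hA) hp.le).trans (le_of_eq ?_)
    exact (ENNReal.orderIsoRpow _ hp).map_iSup _
  refine (add_le_add (e A hA) (e B hB)).trans ?_
  rw [ENNReal.iSup_add]
  refine iSup_le fun K => ?_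
  rw [ENNReal.add_iSup]
  refine iSup_le fun L => ?_
  exact Main_cpt hn K.2.2.1 L.2.2.1 K.2.2.2 L.2.2.2 fun x hx y hy =>
    h x (K.2.1 hx) y (L.2.1 hy)

/-- **The Brunn-Minkowski inequality** in Euclidean space. -/
theorem bm_euclid {n : ℕ} (hn : 0 < n) {A B S : Set (EuclideanSpace ℝ (Fin n))}
    (hA : MeasurableSet A) (hB : MeasurableSet B) (hA0 : A.Nonempty) (hB0 : B.Nonempty)
    (h : ∀ x ∈ A, ∀ y ∈ B, x + y ∈ S) :
    volume A ^ (1 / (n : ℝ)) + volume B ^ (1 / (n : ℝ)) ≤ volume S ^ (1 / (n : ℝ)) := by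
  have mp := EuclideanSpace.volume_preserving_symm_measurableEquiv_toLp (Fin n)
  set e := (MeasurableEquiv.toLp 2 (Fin n → ℝ)).symm with he
  have v : ∀ A : Set (EuclideanSpace ℝ (Fin n)), volume (e '' A) = volume A := by
    intro A
    rw [← mp.measure_preimage_equiv, e.injective.preimage_image]
  rw [← v A, ← v B, ← v S]
  refine bm_pi hn (e.measurableEmbedding.measurableSet_image.2 hA)
    (e.measurableEmbedding.measurableSet_image.2 hB) (hA0.image _) (hB0.image _) ?_
  rintro _ ⟨x, hx, rfl⟩ _ ⟨y, hy, rfl⟩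
  exact ⟨x + y, h x hx y hy, rfl⟩

/-- The open neighbourhood of radius `r` of a measurable set `A`. -/
theorem bm_thickening {n : ℕ} (hn : 0 < n) {A : Set (EuclideanSpace ℝ (Fin n))}
    (hA : MeasurableSet A) (hA0 : A.Nonempty) {r : ℝ} (hr : 0 < r) :
    volume A ^ (1 / (n : ℝ)) + volume (Metric.ball (0 : EuclideanSpace ℝ (Fin n)) r) ^ (1 / (n : ℝ)) ≤
      volume (Metric.thickening r A) ^ (1 / (n : ℝ)) := by
  refine bm_euclid hn hA Metric.isOpen_ball.measurableSet hA0 ⟨0, Metric.mem_ball_self hr⟩ ?_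
  intro x hx y hy
  rw [Metric.mem_thickening_iff]
  refine ⟨x, hx, ?_⟩
  rw [mem_ball_zero_iff] at hy
  rw [dist_eq_norm, add_sub_cancel_left]
  exact hy

end Pool.Agent.H88.BM
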