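import Mathlib

/-!
# Dimension one: sums of sets and the Prekopa-Leindler inequality

For the Brunn-Minkowski inequality, `Pool/Agent/H88/BM/Main.lean`.
-/

set_option autoImplicit false

open MeasureTheory Set
open scoped ENNReal

namespace Pool.Agent.H88.BM

/-- Compact nonempty sets of real numbers. -/
private theorem One_compact {K L S : Set ℝ} (hK : IsCompact K) (hL : IsCompact L)
    (hK0 : K.Nonempty) (hL0 : L.Nonempty) (h : ∀ x ∈ K, ∀ y ∈ L, x + y ∈ S) :
    volume K + volume L ≤ volume S := by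
  obtain ⟨a, ha⟩ : ∃ a, a = sSup K := ⟨_, rfl⟩
  obtain ⟨b, hb⟩ : ∃ b, b = sInf L := ⟨_, rfl⟩
  have haK : a ∈ K := ha ▸ hK.sSup_mem hK0
  have hbL : b ∈ L := hb ▸ hL.sInf_mem hL0
  have hKa : ∀ x ∈ K, x ≤ a := fun x hx => ha ▸ le_csSup hK.bddAbove hx
  have hLb : ∀ y ∈ L, b ≤ y := fun y hy => hb ▸ csInf_le hL.bddBelow hy
  have h1 : volume ((fun x => x + b) '' K) = volume K := by
    rw [image_add_right, measure_preimage_add_right]
  have h2 : volume ((fun y => a + y) '' L) = volume L := by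
    rw [image_add_left, measure_preimage_add]
  have h3 : MeasurableSet ((fun y => a + y) '' L) :=
    (hL.image (by fun_prop)).isClosed.measurableSet
  have h4 := measure_union_add_inter (μ := (volume : Measure ℝ)) ((fun x => x + b) '' K) h3
  have h5 : volume ((fun x => x + b) '' K ∩ (fun y => a + y) '' L) = 0 := by
    refine measure_mono_null (t := {a + b}) ?_ (measure_singleton _)
    rintro z ⟨⟨x, hx, rfl⟩, ⟨y, hy, hxy⟩⟩
    have h6 := hKa x hx
    have h7 := hLb y hy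
    simp only at hxy
    simp only [mem_singleton_iff]
    linarith
  rw [h5, add_zero, h1, h2] at h4
  rw [← h4]
  refine measure_mono ?_
  rintro z (⟨x, hx, rfl⟩ | ⟨y, hy, rfl⟩)
  · exact h x hx b hbL
  · exact h a haK y hy

/-- Nonempty compact subsets of `A`. -/
theorem One_sup {α : Type*} [TopologicalSpace α] [MeasurableSpace α] (μ : Measure α)
    [μ.InnerRegular] {A : Set α} (hA : MeasurableSet A) :
    μ A ≤ ⨆ K : {K : Set α // K ⊆ A ∧ IsCompact K ∧ K.Nonempty}, μ K.1 := by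
  refine le_of_forall_lt fun r hr => ?_
  obtain ⟨K, hKA, hK, hrK⟩ := hA.exists_lt_isCompact hr
  have hK0 : K.Nonempty := by
    by_contra h
    rw [not_nonempty_iff_eq_empty] at h
    rw [h, measure_empty] at hrK
    exact absurd hrK not_lt_zero
  exact lt_iSup_iff.2 ⟨⟨K, hKA, hK, hK0⟩, hrK⟩

/-- The inequality of Brunn and Minkowski on the line. -/
theorem bm_one {A B S : Set ℝ} (hA : MeasurableSet A) (hB : MeasurableSet B)
    (hA0 : A.Nonempty) (hB0 : B.Nonempty) (h : ∀ x ∈ A, ∀ y ∈ B, x + y ∈ S) :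
    volume A + volume B ≤ volume S := by
  obtain ⟨a, ha⟩ := hA0
  obtain ⟨b, hb⟩ := hB0
  have : Nonempty {K : Set ℝ // K ⊆ A ∧ IsCompact K ∧ K.Nonempty} :=
    ⟨⟨{a}, by simpa using ha, isCompact_singleton, singleton_nonempty a⟩⟩
  have : Nonempty {K : Set ℝ // K ⊆ B ∧ IsCompact K ∧ K.Nonempty} :=
    ⟨⟨{b}, by simpa using hb, isCompact_singleton, singleton_nonempty b⟩⟩
  refine (add_le_add (One_sup volume hA) (One_sup volume hB)).trans ?_
  rw [ENNReal.iSup_add]
  refine iSup_le fun K => ?_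
  rw [ENNReal.add_iSup]
  refine iSup_le fun L => ?_
  exact One_compact K.2.2.1 L.2.2.1 K.2.2.2 L.2.2.2 fun x hx y hy =>
    h x (K.2.1 hx) y (L.2.1 hy)

/-- The same with weights. -/
theorem bm_one_t {A B S : Set ℝ} (hA : MeasurableSet A) (hB : MeasurableSet B)
    (hA0 : A.Nonempty) (hB0 : B.Nonempty) {t : ℝ} (h0 : 0 < t) (h1 : t < 1)
    (h : ∀ x ∈ A, ∀ y ∈ B, (1 - t) * x + t * y ∈ S) :
    ENNReal.ofReal (1 - t) * volume A + ENNReal.ofReal t * volume B ≤ volume S := by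
  have e1 : ∀ (c : ℝ) (A : Set ℝ), 0 < c →
      volume ((fun x => c * x) '' A) = ENNReal.ofReal c * volume A := by
    intro c A hc
    have := Measure.addHaar_smul (volume : Measure ℝ) c A
    rw [Module.finrank_self, pow_one, abs_of_pos hc] at this
    rw [← this]
    rfl
  rw [← e1 (1 - t) A (by linarith), ← e1 t B h0]
  have m1 : ∀ (c : ℝ) (A : Set ℝ), c ≠ 0 → MeasurableSet A →
      MeasurableSet ((fun x => c * x) '' A) := by
    intro c A hc hA
    exact (Homeomorph.mulLeft₀ c hc).measurableEmbedding.measurableSet_image.2 hA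
  refine bm_one (m1 _ _ (sub_pos.2 h1).ne' hA) (m1 _ _ h0.ne' hB) (hA0.image _)
    (hB0.image _) ?_
  rintro _ ⟨x, hx, rfl⟩ _ ⟨y, hy, rfl⟩
  exact h x hx y hy

private theorem One_amgm {p q : ℝ≥0∞} (hp : p ≠ ∞) (hq : q ≠ ∞) {t : ℝ} (h0 : 0 < t)
    (h1 : t < 1) : p ^ (1 - t) * q ^ t ≤ ENNReal.ofReal (1 - t) * p + ENNReal.ofReal t * q := by
  have h2 : 0 ≤ 1 - t := (sub_pos.2 h1).le
  rw [← ENNReal.ofReal_toReal hp, ← ENNReal.ofReal_toReal hq,
    ENNReal.ofReal_rpow_of_nonneg ENNReal.toReal_nonneg h2,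
    ENNReal.ofReal_rpow_of_nonneg ENNReal.toReal_nonneg h0.le,
    ← ENNReal.ofReal_mul (by positivity), ← ENNReal.ofReal_mul h2, ← ENNReal.ofReal_mul h0.le,
    ← ENNReal.ofReal_add (by positivity) (by positivity)]
  exact ENNReal.ofReal_le_ofReal (Real.geom_mean_le_arith_mean2_weighted h2 h0.le
    ENNReal.toReal_nonneg ENNReal.toReal_nonneg (by ring))

/-- The Prekopa-Leindler inequality on the line, for bounded integrable functions. -/
theorem pl_one {f g h : ℝ → ℝ≥0∞} (hf : Measurable f) (hg : Measurable g) (hh : Measurable h)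
    {M : ℝ≥0∞} (hM : M ≠ ∞) (hfM : ∀ x, f x ≤ M) (hgM : ∀ x, g x ≤ M)
    (hfi : ∫⁻ x, f x ≠ ∞) (hgi : ∫⁻ x, g x ≠ ∞) {t : ℝ} (h0 : 0 < t) (h1 : t < 1)
    (H : ∀ x y, f x ^ (1 - t) * g y ^ t ≤ h ((1 - t) * x + t * y)) :
    (∫⁻ x, f x) ^ (1 - t) * (∫⁻ y, g y) ^ t ≤ ∫⁻ z, h z := by
  have h2 : 0 < 1 - t := sub_pos.2 h1
  obtain ⟨a, ha⟩ : ∃ a, a = ⨆ x, f x := ⟨_, rfl⟩
  obtain ⟨b, hb⟩ : ∃ b, b = ⨆ x, g x := ⟨_, rfl⟩
  have hfa : ∀ x, f x ≤ a := fun x => ha ▸ le_iSup f x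
  have hgb : ∀ x, g x ≤ b := fun x => hb ▸ le_iSup g x
  have ha' : a ≠ ∞ := ne_top_of_le_ne_top hM (ha ▸ iSup_le hfM)
  have hb' : b ≠ ∞ := ne_top_of_le_ne_top hM (hb ▸ iSup_le hgM)
  by_cases ha0 : a = 0
  · have : ∫⁻ x, f x = 0 := by
      have h3 : ∀ x, f x = 0 := fun x => le_antisymm (ha0 ▸ hfa x) zero_le
      simp [h3]
    rw [this, ENNReal.zero_rpow_of_pos h2, zero_mul]
    exact zero_le
  by_cases hb0 : b = 0
  · have : ∫⁻ x, g x = 0 := by
      have h3 : ∀ x, g x = 0 := fun x => le_antisymm (hb0 ▸ hgb x) zero_le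
      simp [h3]
    rw [this, ENNReal.zero_rpow_of_pos h0, mul_zero]
    exact zero_le
  obtain ⟨c, hc⟩ : ∃ c, c = a ^ (1 - t) * b ^ t := ⟨_, rfl⟩
  have hat : a ^ (1 - t) ≠ ∞ := ENNReal.rpow_ne_top_of_nonneg h2.le ha'
  have hbt : b ^ t ≠ ∞ := ENNReal.rpow_ne_top_of_nonneg h0.le hb'
  have hc' : c ≠ ∞ := hc ▸ ENNReal.mul_ne_top hat hbt
  have hat0 : a ^ (1 - t) ≠ 0 := (ENNReal.rpow_pos (pos_iff_ne_zero.2 ha0) ha').ne'
  have hbt0 : b ^ t ≠ 0 := (ENNReal.rpow_pos (pos_iff_ne_zero.2 hb0) hb').ne'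
  have hc0 : c ≠ 0 := hc ▸ mul_ne_zero hat0 hbt0
  -- the normalised functions
  have sup1 : ∀ {f : ℝ → ℝ≥0∞} {a : ℝ≥0∞}, a = ⨆ x, f x → a ≠ 0 → a ≠ ∞ →
      ∀ l : ℝ, 0 < l → l < 1 → ∃ x, ENNReal.ofReal l < f x / a := by
    intro f a ha ha0 ha' l hl0 hl1
    have h3 : ENNReal.ofReal l * a < a := by
      have : ENNReal.ofReal l < 1 := by
        rw [← ENNReal.ofReal_one]
        exact (ENNReal.ofReal_lt_ofReal_iff one_pos).2 hl1
      calc ENNReal.ofReal l * a < 1 * a := ENNReal.mul_lt_mul_left ha0 ha' this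
        _ = a := one_mul a
    rw [ha] at h3
    obtain ⟨x, hx⟩ := lt_iSup_iff.1 h3
    rw [← ha] at hx
    exact ⟨x, (ENNReal.lt_div_iff_mul_lt (Or.inl ha0) (Or.inl ha')).2 hx⟩
  have le1 : ∀ {f : ℝ → ℝ≥0∞} {a : ℝ≥0∞}, (∀ x, f x ≤ a) → ∀ x, f x / a ≤ 1 :=
    fun hfa x => ENNReal.div_le_of_le_mul (by rw [one_mul]; exact hfa x)
  have layer : ∀ {F : ℝ → ℝ≥0∞}, Measurable F → (∀ x, F x ≤ 1) →
      ∫⁻ x, F x = ∫⁻ l in Ioi (0 : ℝ), volume {x | ENNReal.ofReal l < F x} := by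
    intro F hF hF1
    have h3 := lintegral_eq_lintegral_meas_lt (volume : Measure ℝ) (f := fun x => (F x).toReal)
      (Filter.Eventually.of_forall fun x => ENNReal.toReal_nonneg) hF.ennreal_toReal.aemeasurable
    have h4 : ∀ x, F x ≠ ∞ := fun x => ne_top_of_le_ne_top ENNReal.one_ne_top (hF1 x)
    calc ∫⁻ x, F x = ∫⁻ x, ENNReal.ofReal (F x).toReal :=
          lintegral_congr fun x => (ENNReal.ofReal_toReal (h4 x)).symm
      _ = _ := h3
      _ = _ := by
          refine setLIntegral_congr_fun measurableSet_Ioi fun l hl => ?_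
          congr 1
          ext x
          simp only [mem_ofPred_eq]
          rw [ENNReal.ofReal_lt_iff_lt_toReal (mem_Ioi.1 hl).le (h4 x)]
  obtain ⟨F, hF⟩ : ∃ F : ℝ → ℝ≥0∞, F = fun x => f x / a := ⟨_, rfl⟩
  obtain ⟨G, hG⟩ : ∃ G : ℝ → ℝ≥0∞, G = fun x => g x / b := ⟨_, rfl⟩
  obtain ⟨K, hK⟩ : ∃ K : ℝ → ℝ≥0∞, K = fun x => min (h x / c) 1 := ⟨_, rfl⟩
  have mF : Measurable F := hF ▸ hf.div_const a
  have mG : Measurable G := hG ▸ hg.div_const b
  have mK : Measurable K := hK ▸ (hh.div_const c).min measurable_const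
  have lF := layer mF (fun x => by rw [hF]; exact le1 hfa x)
  have lG := layer mG (fun x => by rw [hG]; exact le1 hgb x)
  have lK := layer mK (fun x => by rw [hK]; exact min_le_right _ _)
  have meas : ∀ F : ℝ → ℝ≥0∞, Measurable fun l : ℝ => volume {x | ENNReal.ofReal l < F x} := by
    intro F
    refine Antitone.measurable fun l l' hl => measure_mono fun x hx => ?_
    exact lt_of_le_of_lt (ENNReal.ofReal_le_ofReal hl) hx
  have key : ENNReal.ofReal (1 - t) * (∫⁻ x, F x) + ENNReal.ofReal t * (∫⁻ x, G x) ≤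
      ∫⁻ x, K x := by
    rw [lF, lG, lK, ← lintegral_const_mul _ (meas F), ← lintegral_const_mul _ (meas G),
      ← lintegral_add_left ((meas F).const_mul _)]
    refine setLIntegral_mono (meas K) fun l hl => ?_
    rcases lt_or_ge l 1 with hl1 | hl1
    · have hl0 : 0 < l := hl
      refine bm_one_t (measurableSet_lt measurable_const mF) (measurableSet_lt measurable_const mG)
        ?_ ?_ h0 h1 ?_
      · obtain ⟨x, hx⟩ := sup1 ha ha0 ha' l hl0 hl1
        exact ⟨x, by rw [hF]; exact hx⟩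
      · obtain ⟨x, hx⟩ := sup1 hb hb0 hb' l hl0 hl1
        exact ⟨x, by rw [hG]; exact hx⟩
      · intro x hx y hy
        simp only [mem_ofPred_eq] at hx hy ⊢
        rw [hK]
        refine lt_min ?_ ?_
        · have h3 : ENNReal.ofReal l = ENNReal.ofReal l ^ (1 - t) * ENNReal.ofReal l ^ t := by
            rw [← ENNReal.rpow_add _ _ (by simpa using hl0) ENNReal.ofReal_ne_top]
            simp
          have h4 : F x ^ (1 - t) * G y ^ t ≤ h ((1 - t) * x + t * y) / c := by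
            rw [hF, hG, hc]
            simp only
            rw [ENNReal.div_rpow_of_nonneg _ _ h2.le, ENNReal.div_rpow_of_nonneg _ _ h0.le]
            refine (ENNReal.le_div_iff_mul_le (Or.inl (mul_ne_zero hat0 hbt0))
              (Or.inl (ENNReal.mul_ne_top hat hbt))).2 ?_
            calc f x ^ (1 - t) / a ^ (1 - t) * (g y ^ t / b ^ t) * (a ^ (1 - t) * b ^ t)
                = (f x ^ (1 - t) / a ^ (1 - t) * a ^ (1 - t)) * (g y ^ t / b ^ t * b ^ t) := by
                  ring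
              _ = f x ^ (1 - t) * g y ^ t := by
                  rw [ENNReal.div_mul_cancel hat0 hat, ENNReal.div_mul_cancel hbt0 hbt]
              _ ≤ _ := H x y
          refine lt_of_lt_of_le ?_ h4
          rw [h3]
          exact ENNReal.mul_lt_mul (ENNReal.rpow_lt_rpow hx h2) (ENNReal.rpow_lt_rpow hy h0)
        · rw [← ENNReal.ofReal_one]
          exact (ENNReal.ofReal_lt_ofReal_iff one_pos).2 hl1
    · have emp : ∀ {F : ℝ → ℝ≥0∞}, (∀ x, F x ≤ 1) → volume {x | ENNReal.ofReal l < F x} = 0 := by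
        intro F hF1
        have : {x | ENNReal.ofReal l < F x} = ∅ := by
          ext x
          simp only [mem_ofPred_eq, mem_empty_iff_false, iff_false, not_lt]
          refine (hF1 x).trans ?_
          rw [← ENNReal.ofReal_one]
          exact ENNReal.ofReal_le_ofReal hl1
        rw [this, measure_empty]
      rw [emp (F := F) (fun x => by rw [hF]; exact le1 hfa x),
        emp (F := G) (fun x => by rw [hG]; exact le1 hgb x)]
      simp
  have iF : ∫⁻ x, F x = (∫⁻ x, f x) / a := by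
    rw [hF]
    simp only [div_eq_mul_inv]
    rw [lintegral_mul_const _ hf]
  have iG : ∫⁻ x, G x = (∫⁻ x, g x) / b := by
    rw [hG]
    simp only [div_eq_mul_inv]
    rw [lintegral_mul_const _ hg]
  have iK : ∫⁻ x, K x ≤ (∫⁻ x, h x) / c := by
    rw [hK]
    refine (lintegral_mono fun x => min_le_left _ _).trans (le_of_eq ?_)
    simp only [div_eq_mul_inv]
    rw [lintegral_mul_const _ hh]
  have am := One_amgm (p := (∫⁻ x, f x) / a) (q := (∫⁻ x, g x) / b)
    (ENNReal.div_ne_top hfi ha0) (ENNReal.div_ne_top hgi hb0) h0 h1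
  rw [iF, iG] at key
  have fin := am.trans (key.trans iK)
  rw [ENNReal.div_rpow_of_nonneg _ _ h2.le, ENNReal.div_rpow_of_nonneg _ _ h0.le,
    ENNReal.le_div_iff_mul_le (Or.inl hc0) (Or.inl hc')] at fin
  refine le_trans (le_of_eq ?_) fin
  rw [hc]
  calc (∫⁻ x, f x) ^ (1 - t) * (∫⁻ y, g y) ^ t
      = ((∫⁻ x, f x) ^ (1 - t) / a ^ (1 - t) * a ^ (1 - t)) *
        ((∫⁻ y, g y) ^ t / b ^ t * b ^ t) := by
        rw [ENNReal.div_mul_cancel hat0 hat, ENNReal.div_mul_cancel hbt0 hbt]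
    _ = _ := by ring

end Pool.Agent.H88.BM
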